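import Pool.Agent.H7.GT.Stmts

set_option autoImplicit false

open Finset

namespace Pool.GT7

open Pool.Agent.H23.KT Pool.Agent.H46.KW Pool.KQ

theorem SWP_arith {η e a κ c1 c2 : ℝ} (h0 : 0 < η) (h1 : η ≤ 1 / 4) (he0 : 0 ≤ e)
    (he1 : e ≤ η / 2) (hc1 : 0 ≤ c1) (hc2 : 0 ≤ c2)
    (hA : (a + 0) * κ ≤ (1 - η) * c2 + 1 / 4 * c1) (hB : c2 ≤ (1 + e) * a * κ) :
    η * c2 ≤ c1 := by
  have h2 : c2 ≤ (1 + e) * ((1 - η) * c2 + 1 / 4 * c1) := by
    calc c2 ≤ (1 + e) * a * κ := hB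
      _ = (1 + e) * ((a + 0) * κ) := by ring
      _ ≤ _ := mul_le_mul_of_nonneg_left hA (by linarith)
  have h3 : (1 + e) * (1 - η) ≤ 1 - η / 2 := by nlinarith
  have h4 : (1 + e) * (1 - η) * c2 ≤ (1 - η / 2) * c2 := mul_le_mul_of_nonneg_right h3 hc2
  have h5 : (1 + e) / 4 * c1 ≤ 1 / 2 * c1 := mul_le_mul_of_nonneg_right (by linarith) hc1
  have h6 : (1 + e) * ((1 - η) * c2 + 1 / 4 * c1) =
      (1 + e) * (1 - η) * c2 + (1 + e) / 4 * c1 := by ring
  rw [h6] at h2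
  linarith

theorem SWP_thm (h1 : CSCStmt) (h2 : CCKStmt) : SWPStmt := by
  intro p w r hprm
  obtain ⟨η, e₀, hη0, hη1, he0, hcs⟩ := h1 p
  have he1 : 0 < e1 p := by
    unfold e1
    positivity
  refine ⟨η, min e₀ (min (e1 p / 2) (η / 2)), hη0, hη1, ?_, ?_, ?_⟩
  · exact lt_min he0 (lt_min (half_pos he1) (half_pos hη0))
  · exact le_trans (min_le_right _ _) (min_le_left _ _)
  · intro C
    obtain ⟨a₀, ha₀⟩ := hcs 0 C
    refine ⟨a₀, ?_⟩
    intro a ha V _ G e W P U hstr he hee hCB z hz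
    have hA := (ha₀ a ha G e W P U hstr he (le_trans hee (min_le_left _ _)) hCB z hz).1
    have hB := (h2 G p w r a e C W P U hprm hstr he
      (le_trans hee (le_trans (min_le_right _ _) (min_le_left _ _))) hCB z hz).2.1
    rw [Nat.cast_zero] at hA
    exact SWP_arith hη0 hη1 he
      (le_trans hee (le_trans (min_le_right _ _) (min_le_right _ _)))
      (Nat.cast_nonneg _) (Nat.cast_nonneg _) hA hB

end Pool.GT7
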