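import Pool.Agent.H7.GT.Stmts

set_option autoImplicit false

open Finset

namespace Pool.GT7

open Pool.Agent.H23.KT Pool.Agent.H46.KW Pool.KQ

open Polynomial in
theorem TTR_one (b u a s : ℕ) (hs : s ≤ b) :
    TT (b + 1) (u + 1) a (s + 1) = TT (b + 1) (u + 1) a s + TT b u a s := by
  unfold TT
  have e : ((1 + C (a + 1) * X) ^ (s + 1) * (1 + C a * X) ^ (b + 1 - (s + 1)) : ℕ[X]) =
      (1 + C (a + 1) * X) ^ s * (1 + C a * X) ^ (b + 1 - s) +
        X * ((1 + C (a + 1) * X) ^ s * (1 + C a * X) ^ (b - s)) := by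
    have e1 : b + 1 - (s + 1) = b - s := by omega
    have e2 : b + 1 - s = (b - s) + 1 := by omega
    have e3 : (1 + C (a + 1) * X : ℕ[X]) = (1 + C a * X) + X := by
      rw [C_add, C_1]; ring
    rw [e1, e2, pow_succ, pow_succ]
    generalize (1 + C a * X : ℕ[X]) ^ (b - s) = Q
    have : (1 + C (a + 1) * X : ℕ[X]) ^ s * (1 + C (a + 1) * X) * Q =
        (1 + C (a + 1) * X : ℕ[X]) ^ s * ((1 + C a * X) + X) * Q := by
      rw [← e3]
    rw [this]
    ring
  rw [e, coeff_add, coeff_X_mul]

open Polynomial in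
theorem TTR_pow (c b : ℕ) : ∀ u : ℕ,
    ((1 + C c * X : ℕ[X]) ^ b).coeff u = b.choose u * c ^ u := by
  induction b with
  | zero =>
    intro u
    cases u with
    | zero => simp
    | succ u => simp [coeff_one]
  | succ b ih =>
    intro u
    have e : (1 + C c * X : ℕ[X]) ^ (b + 1) = (1 + C c * X) ^ b + C c * (X * (1 + C c * X) ^ b) := by
      rw [pow_succ]; ring
    rw [e, coeff_add, coeff_C_mul]
    cases u with
    | zero =>
      rw [ih]
      simp
    | succ u =>
      rw [coeff_X_mul, ih, ih, Nat.choose_succ_succ, pow_succ]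
      ring

open Polynomial in
theorem TTR_zero (b a s : ℕ) : TT b 0 a s = 1 := by
  unfold TT
  rw [mul_coeff_zero, TTR_pow, TTR_pow]
  simp

theorem TTR_step (b u a s : ℕ) (hs : s + 1 ≤ b) : TT b u a s ≤ TT b u a (s + 1) := by
  cases u with
  | zero => rw [TTR_zero, TTR_zero]
  | succ u =>
    obtain ⟨b', rfl⟩ : ∃ b', b = b' + 1 := ⟨b - 1, by omega⟩
    rw [TTR_one b' u a s (by omega)]
    exact Nat.le_add_right _ _

theorem TTR_mono (b u a s s' : ℕ) (h : s ≤ s') (hb : s' ≤ b) : TT b u a s ≤ TT b u a s' := by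
  induction s', h using Nat.le_induction with
  | base => exact le_rfl
  | succ t ht ih => exact le_trans (ih (by omega)) (TTR_step b u a t hb)

open Polynomial in
theorem TTR_thm : TTRStmt := by
  refine ⟨TTR_one, ?_, ?_, fun b u a s s' h hb => TTR_mono b u a s s' h hb⟩
  · intro b u a r hr1 hrb
    obtain ⟨q, rfl⟩ : ∃ q, r = q + 1 := ⟨r - 1, by omega⟩
    have h1 := TTR_one b u a q (by omega)
    rw [Nat.add_sub_cancel]
    have hd : derivative ((1 + C (a + 1) * X) ^ (q + 1) * (1 + C a * X) ^ (b + 2 - (q + 1)) : ℕ[X]) =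
        C ((q + 1) * (a + 1)) * ((1 + C (a + 1) * X) ^ q * (1 + C a * X) ^ (b + 1 - q)) +
        C ((b + 1 - q) * a) *
          ((1 + C (a + 1) * X) ^ (q + 1) * (1 + C a * X) ^ (b + 1 - (q + 1))) := by
      have e1 : b + 2 - (q + 1) = (b - q) + 1 := by omega
      have e2 : b + 1 - q = (b - q) + 1 := by omega
      have e3 : b + 1 - (q + 1) = b - q := by omega
      rw [e1, e2, e3, derivative_mul, derivative_pow_succ, derivative_pow_succ]
      have d1 : derivative (1 + C (a + 1) * X : ℕ[X]) = C (a + 1) := by simp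
      have d2 : derivative (1 + C a * X : ℕ[X]) = C a := by simp
      rw [d1, d2, C_mul, C_mul]
      have c1 : (C ((q : ℕ) + 1) : ℕ[X]) = (C ((q : ℕ)) + 1) := by rw [C_add, C_1]
      have c2 : (C ((b - q : ℕ) + 1) : ℕ[X]) = (C ((b - q : ℕ)) + 1) := by rw [C_add, C_1]
      simp only [Nat.cast_id, c1, c2]
      ring
    have hc := congrArg (fun p : ℕ[X] => p.coeff (u + 1)) hd
    simp only [coeff_derivative, coeff_add, coeff_C_mul] at hc
    change TT (b + 2) (u + 1 + 1) a (q + 1) * (((u + 1 : ℕ) : ℕ) + 1) =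
      (q + 1) * (a + 1) * TT (b + 1) (u + 1) a q +
        (b + 1 - q) * a * TT (b + 1) (u + 1) a (q + 1) at hc
    have hsub : ∃ m, b + 1 = q + m := ⟨b + 1 - q, by omega⟩
    obtain ⟨m, hm⟩ := hsub
    have hm' : b + 1 - q = m := by omega
    rw [hm'] at hc
    have hb2 : b + 2 = q + 1 + m := by omega
    have e4 : (u + 2) * TT (b + 2) (u + 2) a (q + 1) =
        (q + 1) * (a + 1) * TT (b + 1) (u + 1) a q + m * a * TT (b + 1) (u + 1) a (q + 1) := by
      rw [← hc]; ring
    rw [e4, h1]
    have e5 : (b + 2) * a + (q + 1) = (q + 1) * (a + 1) + m * a := by rw [hb2]; ring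
    rw [e5]
    ring
  · intro b u a s hs
    constructor
    · have := TTR_mono b u a 0 s (Nat.zero_le _) hs
      have e : TT b u a 0 = b.choose u * a ^ u := by
        unfold TT
        rw [pow_zero, one_mul, Nat.sub_zero, TTR_pow]
      rw [← e]
      exact this
    · have := TTR_mono b u a s b hs le_rfl
      have e : TT b u a b = b.choose u * (a + 1) ^ u := by
        unfold TT
        rw [Nat.sub_self, pow_zero, mul_one, TTR_pow]
      rw [← e]
      exact this

end Pool.GT7
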